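import Pool.Agent.Lib.MP_b9166b_al.An.St

/-!
# Simple groups which are locally nilpotent-by-alternating

Let `G` be a simple group such that every finite subset `S` of `G` lies in a finite subgroup `H`
which has a homomorphism onto an alternating group with nilpotent kernel, mapping no element `≠ 1`
of `S` to `1`. If the centralizer of some element of `G` is finitary linear, then `G` is a group of
finitary permutations of an infinite set; in particular `G` is finitary linear.
-/

set_option autoImplicit false

namespace Pool.Agent.Results.MP_b9166b_al.AlternatingNilpotent

open Pool.Agent.Lib.MP_b9166b_al Pool.Agent.Lib.MP_b9166b_al.An

/-- If a simple group `G` has alternating covers with nilpotent kernels, and if some element of `G`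
has a finitary linear centralizer, then `G` is a group of finitary permutations of an infinite set,
and it is finitary linear. -/
theorem result (G : Type) [Group G] (hs : IsSimpleGroup G) (hG : AltNil G) (x : G)
    (hx : FinLin (Subgroup.centralizer ({x} : Set G))) : FinPerm G ∧ FinLin G :=
  have h := hG.finPerm hs x hx
  ⟨h, h.finLin⟩

end Pool.Agent.Results.MP_b9166b_al.AlternatingNilpotent
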