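import Pool.Agent.Lib.MP_b9166b_al.Kss.Fin

/-!
# Simple locally finite groups with a finitary linear centralizer

Let `G` be a simple group and `x, z` elements of `G`.  Suppose that every finite subset of `G` lies in a
finite subgroup `H` containing `x` and `z` which has a normal subgroup `T` and a subgroup `M` of `H / T`
such that `H / T = M C(M)`, `M` is a central quotient of some `Alt(n)` or `SL_n(F)`, `F` a finite field, `M`
does not centralize `z T`, and `T` has order prime to the order of `x` or, more generally, the perfect
subgroups of `M` centralizing `x T` are covered by `C_H(x)`.  If `C_G(x)` is finitary linear then `G` is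
finitary linear.
-/

set_option autoImplicit false

namespace Pool.Agent.Results.MP_b9166b_al.CoprimeKernel

open Pool.Agent.Lib.MP_b9166b_al.Kss

theorem result (G : Type) [Group G] (hs : IsSimpleGroup G) (x z : G)
    (h : ∀ S : Finset G, ∃ H : Subgroup G, (∀ s ∈ S, s ∈ H) ∧ Cover x z H)
    (hx : FinLin (Subgroup.centralizer ({x} : Set G))) : FinLin G :=
  main G hs x z h hx

end Pool.Agent.Results.MP_b9166b_al.CoprimeKernel
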