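import Pool.Agent.Lib.MP_b9166b_al.Bt.Fin

/-!
# Simple groups of alternating type and of `p`-type

Let `G` be a simple group of one of the two types of nonfinitary simple locally finite groups, and let
`x` be an element of `G`. Suppose that `x` has prime power order if `G` is of alternating type, and that
`x` has odd order if `G` is of 2-type; `x` is arbitrary if `G` is of `p`-type, `p` odd. If the
centralizer of `x` is finitary linear then `G` is finitary linear. In particular this holds for both
types and all elements `x` of odd prime power order.
-/

set_option autoImplicit false

namespace Pool.Agent.Results.MP_b9166b_al.OddPrimePower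

open Pool.Agent.Lib.MP_b9166b_al.Bt

/-- Simple groups of alternating type, `x` of prime power order; simple groups of `p`-type, `x`
arbitrary if `p` is odd, `x` of odd order if `p = 2`: if `C_G(x)` is finitary linear then so is `G`. -/
theorem result (G : Type) [Group G] (hs : IsSimpleGroup G) (x : G)
    (h : (AltType G ∧ ∃ q j : ℕ, q.Prime ∧ x ^ q ^ j = 1) ∨
      ∃ p : ℕ, p.Prime ∧ PType p G ∧ (p = 2 → Odd (orderOf x)))
    (hx : FinLin (Subgroup.centralizer ({x} : Set G))) : FinLin G :=
  main G hs x h hx

end Pool.Agent.Results.MP_b9166b_al.OddPrimePower
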