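import Pool.Agent.Lib.MP_b9166b_al.Rg.RegB

/-!
# Locally finite groups of regular alternating type with nilpotent kernels

Let `G` be an infinite locally finite group in which every finite subgroup `F` normalizes a finite
subgroup `L` with an alternating (or symmetric) quotient `L / N` on `n` points, `N` nilpotent, such
that `F` acts compatibly on the `n` points and has a regular orbit. Then the centralizer of an
element of `G` is never finitary linear. The order of the element and of the kernels `N` are
arbitrary.
-/

set_option autoImplicit false

namespace Pool.Agent.Results.MP_b9166b_al.RegularCovers

open Pool.Agent.Lib.MP_b9166b_al Pool.Agent.Lib.MP_b9166b_al.Rg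

/-- In an infinite locally finite group with regular alternating covers with nilpotent kernels no
element has a finitary linear centralizer. -/
theorem result (G : Type) [Group G] [Infinite G] (hlf : LocFin G) (hG : RegAlt G) (x : G) :
    ¬ FinLin (Subgroup.centralizer ({x} : Set G)) :=
  regAlt hlf hG x

end Pool.Agent.Results.MP_b9166b_al.RegularCovers
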